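import Pool.Agent.Helper812_PN.Class

/-!
# MP_6451f1_ag: the p-adic monodromy-weight conjecture and the equality of the Bloch-Kato groups
`H^1_e`, `H^1_f`, `H^1_g` for the cohomology of degree `2m+1` of varieties of dimension `2m+1`
-/

set_option autoImplicit false

open Module

universe u v

namespace Pool.Agent.Results.MP_6451f1_ag.BlochKatoGroups

open Pool.Agent.Helper812_PN

/-- **The p-adic monodromy-weight conjecture is equivalent to the equality of the Bloch-Kato groups
`H^1_e`, `H^1_f` and `H^1_g` for the middle cohomology of odd-dimensional varieties.**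

Let `K` be a finite extension of `ℚ_p` with residue field with `q` elements, and let `𝒳` be a class
of smooth proper varieties over `K` (`𝒳 n` consists of those of dimension `n`), closed under products
with a Tate elliptic curve (`HasTateProducts`), for example the class of all smooth projective
varieties over `K`, or the class of the products of one variety with powers of a Tate curve and with
smooth projective varieties with good reduction. A variety `X` enters through its cohomology
(`Cohomology`): `H^i(X)` is `H^i_pst,p(X)`, with coefficients extended to an algebraically closed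
field `Ω`, with the action `Φ` of a geometric Frobenius element of the Weil group and with the
monodromy operator `N`, and with Poincare duality.

1. The following are equivalent: the `p`-adic monodromy-weight conjecture holds for all `H^i(X)`, for
   all `X` in the class; the kernel of `N` on `H^i(X)` has weights `≤ i`, for all `X` in the class and
   all `i` (local invariant cycle property).
2. Suppose moreover that the eigenvalues of weight `i + 1` on `H^i(X)` become Tate classes in the
   middle cohomology of the product of `X` with a smooth projective variety with good reduction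
   (`HasTwists`; for the class of all smooth projective varieties this follows from the theorem of
   Honda and Tate and the Künneth formula). Then the following are equivalent:
   * the `p`-adic monodromy-weight conjecture holds for all `H^i(X)`, for all `X` in the class;
   * `Φ ^ k` has no eigenvalue `q ^ (c k)` on the kernel of `N` on `H^i(X)`, for all `X` in the
     class, `k ≥ 1` and `i < 2 c`; that is, `D_cris(V)^(φ = 1) = 0` for the representation
     `V = H^i_et(X, ℚ_p(c))` of all open subgroups `G_K'` of `G_K`;
   * the same only for `X` in the class of dimension `2 m + 1`, `i = 2 m + 1`, `c = m + 1`; that is,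
     `H^1_e(K', V) = H^1_f(K', V)` for `V = H^(2m+1)_et(X, ℚ_p(m + 1))` and all finite extensions
     `K'` of `K`;
   * `Φ ^ k` has no eigenvalue `q ^ (m k)` on the cokernel of `N` on `H^(2m+1)(X)`, for `X` in the
     class of dimension `2 m + 1`; that is, `H^1_f(K', V) = H^1_g(K', V)` for
     `V = H^(2m+1)_et(X, ℚ_p(m + 1))` and all finite extensions `K'` of `K`. -/
theorem result {Ω : Type u} [Field Ω] [CharZero Ω] [IsAlgClosed Ω] {q : ℕ} (hq : 1 < q)
    (𝒳 : ∀ n, Set (Cohomology.{u, v} Ω q n)) (hT : HasTateProducts 𝒳) :
    ((∀ n, ∀ X ∈ 𝒳 n, ∀ i : ℕ, (X.H i).Pure i) ↔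
      ∀ n, ∀ X ∈ 𝒳 n, ∀ i : ℕ, (X.H i).KerBounded i) ∧
    (HasTwists 𝒳 →
      [∀ n, ∀ X ∈ 𝒳 n, ∀ i : ℕ, (X.H i).Pure i,
        ∀ n, ∀ X ∈ 𝒳 n, ∀ i c, i < 2 * c → (X.H i).NoInvariants c,
        ∀ m, ∀ X ∈ 𝒳 (2 * m + 1), (X.H (2 * m + 1)).NoInvariants (m + 1),
        ∀ m, ∀ X ∈ 𝒳 (2 * m + 1), (X.H (2 * m + 1)).NoCoinvariants m].TFAE) := by
  constructor
  · constructor
    · exact fun h n X hX i => kerBounded_of_pure _ hq (h n X hX i)
    · exact fun h => pure_of_injAt hq hT
        (fun n X hX i => injAt_one_of_kerBounded _ hq (h n X hX i))
  · intro hW
    tfae_have 1 → 2 := fun h n X hX i c hic =>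
      noInvariants_of_kerBounded (by exact_mod_cast hic) (kerBounded_of_pure _ hq (h n X hX i))
    tfae_have 2 → 3 := fun h m X hX => h _ X hX (2 * m + 1) (m + 1) (by omega)
    tfae_have 3 → 1 := fun h => pure_of_injAt hq hT (injAt_one_of_noInvariants hq hW h)
    tfae_have 3 → 4 := by
      intro h m X hX
      obtain ⟨B, hB⟩ := (X.dual (2 * m + 1) (2 * m + 1) (by ring)).exists
      exact noCoinvariants_of_noInvariants hq hB (by ring) (surjective_Φ hq _) (h m X hX)
    tfae_have 4 → 3 := by
      intro h m X hX
      obtain ⟨B, hB⟩ := (X.dual (2 * m + 1) (2 * m + 1) (by ring)).exists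
      exact noInvariants_of_noCoinvariants hq hB (by ring) (h m X hX)
    tfae_finish

end Pool.Agent.Results.MP_6451f1_ag.BlochKatoGroups
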